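import Mathlib

namespace Pool.Agent.H.MP_b7f2f1_an

open Finset

variable {𝕜 : Type} [RCLike 𝕜]

/-- `r` bounds all the norming expressions of the coordinate sequence `a`. -/
def Bd (a : ℕ → 𝕜) (r : ℝ) : Prop :=
  (∀ i j l, i ≠ j → i ≠ l → j ≠ l → 3 / 4 * (‖a i‖ + ‖a j‖) + 1 / 2 * ‖a l‖ ≤ r) ∧
  (∀ k, 2 ≤ k → ‖a k‖ + 1 / 2 * ‖a 0 - a 1‖ ≤ r) ∧
  ‖a 0‖ + 1 / 2 * ‖a 1‖ ≤ r ∧ ‖a 1‖ + 1 / 2 * ‖a 0‖ ≤ r

theorem Bd.coord {a : ℕ → 𝕜} {r : ℝ} (h : Bd a r) (n : ℕ) : ‖a n‖ ≤ r := by
  obtain ⟨-, hF, h0, h1⟩ := h
  have p0 := norm_nonneg (a 0)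
  have p1 := norm_nonneg (a 1)
  have p2 := norm_nonneg (a 0 - a 1)
  rcases n with _ | _ | n
  · linarith
  · simp only [zero_add] at *; linarith
  · have := hF (n + 1 + 1) (by omega); linarith

theorem Bd.exch {y z : ℕ → 𝕜} {r : ℝ} (h : Bd z r) (j k : ℕ)
    (hoff : ∀ n, n ≠ j → n ≠ k → y n = z n) (hk : y k = 0) (hj : j = k ∨ z j = 0)
    (ht : ∀ n, ‖y n‖ ≤ ‖z k‖) : Bd y r := by
  have hc := h.coord
  obtain ⟨hS, hF, h0, h1⟩ := h
  have hσ : ∀ n, ‖y n‖ ≤ ‖z (Equiv.swap j k n)‖ := by
    intro n
    by_cases e1 : n = j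
    · subst e1; rw [Equiv.swap_apply_left]; exact ht _
    by_cases e2 : n = k
    · subst e2; rw [hk, norm_zero]; exact norm_nonneg _
    rw [Equiv.swap_apply_of_ne_of_ne e1 e2, hoff n e1 e2]
  have t0 := ht 0
  have t1 := ht 1
  have n0 := norm_nonneg (y 0)
  have n1 := norm_nonneg (y 1)
  have m0 := norm_nonneg (z 0)
  have m1 := norm_nonneg (z 1)
  have mk := hc k
  have tri : ‖y 0 - y 1‖ ≤ ‖y 0‖ + ‖y 1‖ := norm_sub_le _ _
  refine ⟨fun i i' l e1 e2 e3 => ?_, ?_⟩
  · have := hS _ _ _ ((Equiv.swap j k).injective.ne e1) ((Equiv.swap j k).injective.ne e2)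
      ((Equiv.swap j k).injective.ne e3)
    have a1 := hσ i
    have a2 := hσ i'
    have a3 := hσ l
    linarith
  by_cases k0 : k = 0
  · subst k0
    rw [hk, norm_zero] at *
    have e : ‖(0 : 𝕜) - y 1‖ = ‖y 1‖ := by rw [zero_sub, norm_neg]
    refine ⟨fun m hm => ?_, by linarith, by linarith⟩
    rw [e]
    by_cases j1 : j = 1
    · subst j1
      have z1 : z 1 = 0 := by rcases hj with hj | hj; · omega
                              · exact hj
      have := hF m hm
      rw [z1, sub_zero] at this
      rw [hoff m (by omega) (by omega)]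
      linarith
    · have := ht m
      rw [hoff 1 (by omega) (by omega)]
      linarith
  by_cases k1 : k = 1
  · subst k1
    rw [hk, norm_zero] at *
    refine ⟨fun m hm => ?_, by linarith, by linarith⟩
    rw [sub_zero]
    by_cases j0 : j = 0
    · subst j0
      have z0 : z 0 = 0 := by rcases hj with hj | hj; · omega
                              · exact hj
      have := hF m hm
      rw [z0, zero_sub, norm_neg] at this
      rw [hoff m (by omega) (by omega)]
      linarith
    · have := ht m
      rw [hoff 0 (by omega) (by omega)]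
      linarith
  have k2 : 2 ≤ k := by omega
  have hFk := hF k k2
  by_cases j0 : j = 0
  · subst j0
    have z0 : z 0 = 0 := by rcases hj with hj | hj; · omega
                            · exact hj
    have e1 : ‖y 1‖ = ‖z 1‖ := by rw [hoff 1 (by omega) (by omega)]
    rw [z0, zero_sub, norm_neg] at hFk
    refine ⟨fun m hm => ?_, by linarith, by linarith⟩
    by_cases mk' : m = k
    · subst mk'; rw [hk, norm_zero]; linarith
    · have := hS k m 1 (by omega) (by omega) (by omega)
      have tm := ht m
      have em : ‖y m‖ = ‖z m‖ := by rw [hoff m (by omega) mk']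
      linarith
  by_cases j1 : j = 1
  · subst j1
    have z1 : z 1 = 0 := by rcases hj with hj | hj; · omega
                            · exact hj
    have e0 : ‖y 0‖ = ‖z 0‖ := by rw [hoff 0 (by omega) (by omega)]
    rw [z1, sub_zero] at hFk
    refine ⟨fun m hm => ?_, by linarith, by linarith⟩
    by_cases mk' : m = k
    · subst mk'; rw [hk, norm_zero]; linarith
    · have := hS k m 0 (by omega) (by omega) (by omega)
      have tm := ht m
      have em : ‖y m‖ = ‖z m‖ := by rw [hoff m (by omega) mk']
      linarith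
  have e0 : y 0 = z 0 := hoff 0 (by omega) (by omega)
  have e1 : y 1 = z 1 := hoff 1 (by omega) (by omega)
  rw [e0, e1]
  refine ⟨fun m hm => ?_, h0, h1⟩
  have := ht m
  linarith

/-- zero out the coordinates in `B` -/
noncomputable def cut (a : ℕ → 𝕜) (B : Finset ℕ) : ℕ → 𝕜 := fun n => if n ∈ B then 0 else a n

theorem Bd.greedy (a : ℕ → 𝕜) (r : ℝ) (A : Finset ℕ)
    (hA : ∀ n ∈ A, ∀ k ∉ A, ‖a k‖ ≤ ‖a n‖) :
    ∀ (d : ℕ) (B : Finset ℕ), (A \ B).card = d → B.card ≤ A.card → Bd (cut a B) r →
      Bd (cut a A) r := by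
  intro d
  induction d with
  | zero =>
    intro B hd hB h
    have : A ⊆ B := by
      rw [Finset.card_eq_zero, Finset.sdiff_eq_empty_iff_subset] at hd; exact hd
    rw [Finset.eq_of_subset_of_card_le this hB]; exact h
  | succ d ih =>
    intro B hd hB h
    have hne : (A \ B).Nonempty := by rw [← Finset.card_pos]; omega
    obtain ⟨k, hk, hmax⟩ := (A \ B).exists_max_image (fun n => ‖a n‖) hne
    rw [Finset.mem_sdiff] at hk
    have hbig : ∀ n, n ∉ B ∨ n ∉ A → ‖a n‖ ≤ ‖a k‖ := by
      intro n hn
      by_cases hnA : n ∈ A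
      · rcases hn with hn | hn
        · exact hmax n (Finset.mem_sdiff.2 ⟨hnA, hn⟩)
        · exact absurd hnA hn
      · exact hA k hk.1 n hnA
    have zk : cut a B k = a k := by simp [cut, hk.2]
    by_cases hBA : B ⊆ A
    · refine ih (insert k B) ?_ ?_ ?_
      · have : A \ insert k B = (A \ B).erase k := by
          ext n; simp only [Finset.mem_sdiff, Finset.mem_insert, Finset.mem_erase]; tauto
        rw [this, Finset.card_erase_of_mem (Finset.mem_sdiff.2 hk)]; omega
      · exact Finset.card_le_card (Finset.insert_subset hk.1 hBA)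
      · refine h.exch k k (fun n hn _ => by simp [cut, hn]) (by simp [cut]) (Or.inl rfl)
          fun n => ?_
        rw [zk]
        by_cases hn : n ∈ insert k B
        · simp [cut, hn]
        · have : cut a (insert k B) n = a n := by simp only [cut, hn, if_false]
          rw [this]
          exact hbig n (Or.inl fun hb => hn (Finset.mem_insert_of_mem hb))
    · obtain ⟨j, hjB, hjA⟩ := Finset.not_subset.1 hBA
      refine ih (insert k (B.erase j)) ?_ ?_ ?_
      · have : A \ insert k (B.erase j) = (A \ B).erase k := by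
          ext n
          simp only [Finset.mem_sdiff, Finset.mem_insert, Finset.mem_erase]
          constructor
          · rintro ⟨h1, h2⟩
            push Not at h2
            exact ⟨h2.1, h1, h2.2 fun e => hjA (e ▸ h1)⟩
          · rintro ⟨h1, h2, h3⟩
            exact ⟨h2, fun h4 => h4.elim h1 fun h5 => h3 h5.2⟩
        rw [this, Finset.card_erase_of_mem (Finset.mem_sdiff.2 hk)]; omega
      · have h1 := Finset.card_insert_le k (B.erase j)
        have h2 := Finset.card_erase_of_mem hjB
        have h3 : 0 < B.card := Finset.card_pos.2 ⟨j, hjB⟩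
        omega
      · refine h.exch j k (fun n hn hn' => by simp [cut, hn, hn']) (by simp [cut])
          (Or.inr (by simp [cut, hjB])) fun n => ?_
        rw [zk]
        by_cases hn : n ∈ insert k (B.erase j)
        · simp only [cut, hn, if_true, norm_zero]; exact norm_nonneg _
        · have : cut a (insert k (B.erase j)) n = a n := by simp only [cut, hn, if_false]
          rw [this]
          refine hbig n ?_
          by_cases e : n = j
          · exact Or.inr (e ▸ hjA)
          · exact Or.inl fun hb =>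
              hn (Finset.mem_insert_of_mem (Finset.mem_erase.2 ⟨e, hb⟩))

end Pool.Agent.H.MP_b7f2f1_an
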