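import Pool.Agent.H.MP_b7f2f1_an.Seq

namespace Pool.Agent.H.MP_b7f2f1_an

open Finset
open scoped ENNReal

variable {𝕜 : Type} [RCLike 𝕜]

def Good (t : (ℕ × ℕ × ℕ) × (𝕜 × 𝕜 × 𝕜)) : Prop :=
  (t.1.1 ≠ t.1.2.1 ∧ t.1.1 ≠ t.1.2.2 ∧ t.1.2.1 ≠ t.1.2.2 ∧
    ‖t.2.1‖ ≤ 3 / 4 ∧ ‖t.2.2.1‖ ≤ 3 / 4 ∧ ‖t.2.2.2‖ ≤ 1 / 2) ∨
  (2 ≤ t.1.1 ∧ t.1.2.1 = 0 ∧ t.1.2.2 = 1 ∧ ‖t.2.1‖ ≤ 1 ∧ ‖t.2.2.1‖ ≤ 1 / 2 ∧
    t.2.2.2 = -t.2.2.1) ∨
  (((t.1.1 = 0 ∧ t.1.2.1 = 1) ∨ (t.1.1 = 1 ∧ t.1.2.1 = 0)) ∧ ‖t.2.1‖ ≤ 1 ∧ ‖t.2.2.1‖ ≤ 1 / 2 ∧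
    t.2.2.2 = 0) ∨
  (‖t.2.1‖ ≤ 1 ∧ t.2.2.1 = 0 ∧ t.2.2.2 = 0)

def ev (a : ℕ → 𝕜) (t : (ℕ × ℕ × ℕ) × (𝕜 × 𝕜 × 𝕜)) : 𝕜 :=
  t.2.1 * a t.1.1 + t.2.2.1 * a t.1.2.1 + t.2.2.2 * a t.1.2.2

theorem sgn (a : 𝕜) (c : ℝ) (hc : 0 ≤ c) : ∃ p : 𝕜, ‖p‖ ≤ c ∧ p * a = ((c * ‖a‖ : ℝ) : 𝕜) := by
  obtain ⟨u, hu, h⟩ := RCLike.exists_norm_eq_mul_self a
  refine ⟨(c : 𝕜) * u, ?_, ?_⟩
  · rw [norm_mul, hu, mul_one, RCLike.norm_ofReal, abs_of_nonneg hc]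
  · rw [mul_assoc, ← h]; push_cast; rfl

theorem mul_le (p a : 𝕜) (c : ℝ) (h : ‖p‖ ≤ c) : ‖p * a‖ ≤ c * ‖a‖ := by
  rw [norm_mul]; exact mul_le_mul_of_nonneg_right h (norm_nonneg _)

theorem le_of (s r : ℝ) (z : 𝕜) (h : z = (s : 𝕜)) (h2 : ‖z‖ ≤ r) : s ≤ r := by
  rw [h, RCLike.norm_ofReal] at h2
  exact (le_abs_self s).trans h2

theorem bd_iff (a : ℕ → 𝕜) (r : ℝ) : Bd a r ↔ ∀ t, Good t → ‖ev a t‖ ≤ r := by
  constructor
  · intro h t ht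
    have hc := h.coord
    obtain ⟨hS, hF, h0, h1⟩ := h
    obtain ⟨⟨i, j, l⟩, p, q, s⟩ := t
    simp only [Good, ev] at ht ⊢
    rcases ht with ⟨e1, e2, e3, hp, hq, hs⟩ | ⟨e1, rfl, rfl, hp, hq, rfl⟩ |
      ⟨e, hp, hq, rfl⟩ | ⟨hp, rfl, rfl⟩
    · have := hS i j l e1 e2 e3
      have b1 := mul_le p (a i) _ hp
      have b2 := mul_le q (a j) _ hq
      have b3 := mul_le s (a l) _ hs
      have := norm_add₃_le (a := p * a i) (b := q * a j) (c := s * a l)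
      linarith
    · have := hF i e1
      have b1 := mul_le p (a i) _ hp
      have b2 := mul_le q (a 0 - a 1) _ hq
      have e : p * a i + q * a 0 + -q * a 1 = p * a i + q * (a 0 - a 1) := by ring
      have := norm_add_le (p * a i) (q * (a 0 - a 1))
      rw [e]; linarith
    · have b1 := mul_le p (a i) _ hp
      have b2 := mul_le q (a j) _ hq
      have := norm_add_le (p * a i) (q * a j)
      rw [zero_mul, add_zero]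
      rcases e with ⟨rfl, rfl⟩ | ⟨rfl, rfl⟩ <;> linarith
    · have b1 := mul_le p (a i) _ hp
      have := hc i
      rw [zero_mul, zero_mul, add_zero, add_zero]; linarith
  · intro h
    refine ⟨fun i j l e1 e2 e3 => ?_, fun k hk => ?_, ?_, ?_⟩
    · obtain ⟨p, hp, p'⟩ := sgn (a i) (3 / 4) (by norm_num)
      obtain ⟨q, hq, q'⟩ := sgn (a j) (3 / 4) (by norm_num)
      obtain ⟨s, hs, s'⟩ := sgn (a l) (1 / 2) (by norm_num)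
      refine le_of _ _ _ ?_ (h ((i, j, l), p, q, s) (Or.inl ⟨e1, e2, e3, hp, hq, hs⟩))
      simp only [ev, p', q', s']; push_cast; ring
    · obtain ⟨p, hp, p'⟩ := sgn (a k) 1 (by norm_num)
      obtain ⟨q, hq, q'⟩ := sgn (a 0 - a 1) (1 / 2) (by norm_num)
      refine le_of _ _ _ ?_
        (h ((k, 0, 1), p, q, -q) (Or.inr (Or.inl ⟨hk, rfl, rfl, hp, hq, rfl⟩)))
      have e : p * a k + q * a 0 + -q * a 1 = p * a k + q * (a 0 - a 1) := by ring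
      simp only [ev]; rw [e, p', q']; push_cast; ring
    · obtain ⟨p, hp, p'⟩ := sgn (a 0) 1 (by norm_num)
      obtain ⟨q, hq, q'⟩ := sgn (a 1) (1 / 2) (by norm_num)
      refine le_of _ _ _ ?_
        (h ((0, 1, 0), p, q, 0) (Or.inr (Or.inr (Or.inl ⟨Or.inl ⟨rfl, rfl⟩, hp, hq, rfl⟩))))
      simp only [ev, p', q']; push_cast; ring
    · obtain ⟨p, hp, p'⟩ := sgn (a 1) 1 (by norm_num)
      obtain ⟨q, hq, q'⟩ := sgn (a 0) (1 / 2) (by norm_num)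
      refine le_of _ _ _ ?_
        (h ((1, 0, 0), p, q, 0) (Or.inr (Or.inr (Or.inl ⟨Or.inr ⟨rfl, rfl⟩, hp, hq, rfl⟩))))
      simp only [ev, p', q']; push_cast; ring

theorem bd_single (n : ℕ) : Bd (Pi.single n (1 : 𝕜) : ℕ → 𝕜) 1 := by
  have h : ∀ i, ‖(Pi.single n (1 : 𝕜) : ℕ → 𝕜) i‖ = if i = n then 1 else 0 := by
    intro i; by_cases e : i = n <;> simp [e]
  refine ⟨fun i j l e1 e2 e3 => ?_, fun k hk => ?_, ?_, ?_⟩
  · rw [h, h, h]; split_ifs <;> first | omega | norm_num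
  · have := norm_sub_le ((Pi.single n (1 : 𝕜) : ℕ → 𝕜) 0) ((Pi.single n (1 : 𝕜) : ℕ → 𝕜) 1)
    rw [h, h] at this
    rw [h]; split_ifs at this ⊢ <;> first | omega | linarith
  · rw [h, h]; split_ifs <;> first | omega | norm_num
  · rw [h, h]; split_ifs <;> first | omega | norm_num

abbrev I (𝕜 : Type) [RCLike 𝕜] : Type := {t : (ℕ × ℕ × ℕ) × (𝕜 × 𝕜 × 𝕜) // Good t}

abbrev E (𝕜 : Type) [RCLike 𝕜] : Type := lp (fun _ : I 𝕜 => 𝕜) ∞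

noncomputable def e (n : ℕ) : E 𝕜 :=
  ⟨fun t => ev (Pi.single n 1) t.1, memℓp_infty ⟨1, by
    rintro _ ⟨t, rfl⟩
    exact (bd_iff _ _).1 (bd_single n) t.1 t.2⟩⟩

def c (n : ℕ) : I 𝕜 := ⟨((n, 0, 0), 1, 0, 0), Or.inr (Or.inr (Or.inr ⟨by simp, rfl, rfl⟩))⟩

noncomputable abbrev X (𝕜 : Type) [RCLike 𝕜] : Submodule 𝕜 (E 𝕜) :=
  (Submodule.span 𝕜 (Set.range (e (𝕜 := 𝕜)))).topologicalClosure

noncomputable def g (t : I 𝕜) : E 𝕜 →L[𝕜] 𝕜 := lp.evalCLM 𝕜 (fun _ : I 𝕜 => 𝕜) ∞ t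

theorem g_apply (t : I 𝕜) (v : E 𝕜) : g t v = v t := rfl

theorem g_e (k n : ℕ) : g (c (𝕜 := 𝕜) k) (e n) = (Pi.single n (1 : 𝕜) : ℕ → 𝕜) k := by
  show ev _ _ = _
  simp [ev, c]

theorem rep (v : E 𝕜) (hv : v ∈ X 𝕜) (t : I 𝕜) : g t v = ev (fun n => g (c (𝕜 := 𝕜) n) v) t.1 := by
  let φ : E 𝕜 →L[𝕜] 𝕜 := g t - (t.1.2.1 • g (c t.1.1.1) + t.1.2.2.1 • g (c t.1.1.2.1) +
    t.1.2.2.2 • g (c t.1.1.2.2))
  have h1 : Submodule.span 𝕜 (Set.range (e (𝕜 := 𝕜))) ≤ LinearMap.ker φ.toLinearMap := by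
    rw [Submodule.span_le]
    rintro _ ⟨n, rfl⟩
    show φ (e n) = 0
    simp only [φ, sub_apply, add_apply,
      smul_apply, g_e, smul_eq_mul]
    exact sub_eq_zero.2 rfl
  have h2 := Submodule.topologicalClosure_minimal _ h1 (ContinuousLinearMap.isClosed_ker φ) hv
  have h3 : φ v = 0 := h2
  simp only [φ, sub_apply, add_apply,
      smul_apply, smul_eq_mul] at h3
  exact sub_eq_zero.1 h3

noncomputable def x (n : ℕ) : X 𝕜 :=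
  ⟨e n, Submodule.le_topologicalClosure _ (Submodule.subset_span ⟨n, rfl⟩)⟩

noncomputable def f (n : ℕ) : X 𝕜 →L[𝕜] 𝕜 := (g (c n)).comp (X 𝕜).subtypeL

theorem f_x (k n : ℕ) : f k (x n : X 𝕜) = if k = n then 1 else 0 := by
  show g (c (𝕜 := 𝕜) k) (e n) = _
  rw [g_e, Pi.single_apply]

theorem norm_iff (v : X 𝕜) (r : ℝ) : ‖v‖ ≤ r ↔ Bd (fun n => f n v) r := by
  rw [bd_iff]
  constructor
  · intro h t ht
    have := rep v.1 v.2 ⟨t, ht⟩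
    have h2 := lp.norm_apply_le_norm (by simp) v.1 ⟨t, ht⟩
    rw [← g_apply, this] at h2
    exact h2.trans h
  · intro h
    have : Nonempty (I 𝕜) := ⟨c 0⟩
    refine lp.norm_le_of_forall_le' (f := v.1) r fun t => ?_
    rw [← g_apply, rep v.1 v.2 t]
    exact h t.1 t.2

theorem dense_x : Dense (Submodule.span 𝕜 (Set.range (x (𝕜 := 𝕜))) : Set (X 𝕜)) := by
  intro v
  rw [Topology.IsInducing.subtypeVal.closure_eq_preimage_closure_image]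
  have : Subtype.val '' (Submodule.span 𝕜 (Set.range (x (𝕜 := 𝕜))) : Set (X 𝕜)) =
      (Submodule.span 𝕜 (Set.range (e (𝕜 := 𝕜))) : Set (E 𝕜)) := by
    have h := Submodule.map_span (X 𝕜).subtype (Set.range (x (𝕜 := 𝕜)))
    rw [← Set.range_comp] at h
    exact congrArg (fun s : Submodule 𝕜 (E 𝕜) => (s : Set (E 𝕜))) h
  exact (congrArg (fun s : Set (E 𝕜) => v.1 ∈ closure s) this).mpr v.2

theorem total (v : X 𝕜) (h : ∀ n, f n v = 0) : v = 0 := by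
  have : ‖v‖ ≤ 0 := by
    rw [norm_iff]
    simp [Bd, h]
  exact norm_le_zero_iff.1 this

theorem f_sum (B : Finset ℕ) (a : ℕ → 𝕜) (k : ℕ) :
    f k (∑ n ∈ B, a n • (x n : X 𝕜)) = if k ∈ B then a k else 0 := by
  simp [map_sum, f_x]

theorem coord_cut (v : X 𝕜) (B : Finset ℕ) :
    (fun k => f k (v - ∑ n ∈ B, f n v • x n)) = cut (fun n => f n v) B := by
  funext k
  rw [map_sub, f_sum, cut]
  split_ifs <;> simp

theorem almost (v : X 𝕜) (A B : Finset ℕ) (hA : ∀ n ∈ A, ∀ k ∉ A, ‖f k v‖ ≤ ‖f n v‖)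
    (hB : B.card ≤ A.card) : ‖v - ∑ n ∈ A, f n v • x n‖ ≤ ‖v - ∑ n ∈ B, f n v • x n‖ := by
  rw [norm_iff, coord_cut]
  refine Bd.greedy _ _ A hA _ B rfl hB ?_
  rw [← coord_cut, ← norm_iff]

theorem norm_x (n : ℕ) : ‖(x n : X 𝕜)‖ ≤ 1 := by
  rw [norm_iff]
  have : (fun k => f k (x n : X 𝕜)) = Pi.single n 1 := by
    funext k; rw [f_x, Pi.single_apply]
  rw [this]; exact bd_single n

theorem norm_f (n : ℕ) : ‖(f n : X 𝕜 →L[𝕜] 𝕜)‖ ≤ 1 := by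
  refine ContinuousLinearMap.opNorm_le_bound _ zero_le_one fun v => ?_
  rw [one_mul]
  exact ((norm_iff v _).1 le_rfl).coord n

/-- the test vector -/
noncomputable def w : X 𝕜 := (1 / 2 : 𝕜) • x 0 + x 1 + x 2

theorem f_w (k : ℕ) : f k (w : X 𝕜) =
    if k = 0 then 1 / 2 else if k = 1 then 1 else if k = 2 then 1 else 0 := by
  simp only [w, map_add, map_smul, f_x, smul_eq_mul]
  split_ifs <;> first | omega | simp

theorem half : ‖(1 / 2 : 𝕜)‖ = 1 / 2 := by simp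

theorem w_greedy : ∀ n ∈ ({2} : Finset ℕ), ∀ k ∉ ({2} : Finset ℕ),
    ‖f k (w : X 𝕜)‖ ≤ ‖f n (w : X 𝕜)‖ := by
  intro n hn k _
  rw [Finset.mem_singleton.1 hn, f_w, f_w]
  split_ifs <;> first | contradiction | omega | norm_num

theorem w_low (a : ℕ → 𝕜) : 5 / 4 ≤ ‖(w : X 𝕜) - ∑ n ∈ ({2} : Finset ℕ), a n • x n‖ := by
  have h := ((norm_iff ((w : X 𝕜) - ∑ n ∈ ({2} : Finset ℕ), a n • x n) _).1 le_rfl).2.2.2
  simp only [map_sub, f_sum, f_w] at h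
  norm_num at h ⊢
  linarith

theorem w_up : ‖(w : X 𝕜) - ∑ n ∈ ({1} : Finset ℕ), (7 / 8 : 𝕜) • x n‖ ≤ 19 / 16 := by
  rw [norm_iff]
  have h : ∀ k, f k ((w : X 𝕜) - ∑ n ∈ ({1} : Finset ℕ), (7 / 8 : 𝕜) • x n) =
      if k = 0 then 1 / 2 else if k = 1 then 1 / 8 else if k = 2 then 1 else 0 := by
    intro k
    rw [map_sub, f_sum ({1} : Finset ℕ) (fun _ => (7 / 8 : 𝕜)), f_w]
    simp only [Finset.mem_singleton]
    split_ifs <;> first | omega | norm_num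
  have h' : ∀ k, ‖f k ((w : X 𝕜) - ∑ n ∈ ({1} : Finset ℕ), (7 / 8 : 𝕜) • x n)‖ =
      if k = 0 then 1 / 2 else if k = 1 then 1 / 8 else if k = 2 then 1 else 0 := by
    intro k
    rw [h]
    split_ifs <;> simp
  refine ⟨fun i j l e1 e2 e3 => ?_, fun k hk => ?_, ?_, ?_⟩
  · simp only [h']
    split_ifs <;> first | omega | norm_num
  · simp only [h']
    simp only [h]
    have : ‖(1 / 2 - 1 / 8 : 𝕜)‖ = 3 / 8 := by
      rw [show (1 / 2 - 1 / 8 : 𝕜) = 3 / 8 by norm_num]; simp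
    simp only [if_true, one_ne_zero, if_false, this]
    split_ifs <;> first | omega | norm_num
  · simp only [h']; norm_num
  · simp only [h']; norm_num

end Pool.Agent.H.MP_b7f2f1_an
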