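import Pool.Agent.H.MP_b7f2f1_an.Space

namespace Pool.Agent.H.MP_b7f2f1_an

open Finset

variable {𝕜 : Type} [RCLike 𝕜]

theorem cut_le (y : X 𝕜) (A : Finset ℕ) : ‖y - ∑ n ∈ A, f n y • x n‖ ≤ 2 * ‖y‖ := by
  rw [norm_iff, coord_cut]
  have h : ∀ n, ‖cut (fun n => f n y) A n‖ ≤ ‖y‖ := by
    intro n
    unfold cut
    split_ifs
    · simp
    · exact ((norm_iff y _).1 le_rfl).coord n
  have p := norm_nonneg y
  have h0 := h 0
  have h1 := h 1
  refine ⟨fun i j l _ _ _ => ?_, fun k _ => ?_, by linarith, by linarith⟩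
  · have := h i; have := h j; have := h l; linarith
  · have := h k
    have := norm_sub_le (cut (fun n => f n y) A 0) (cut (fun n => f n y) A 1)
    linarith

theorem hasSum_x (v : X 𝕜) : HasSum (fun n => f n v • x n) v := by
  refine Metric.tendsto_atTop.2 fun ε hε => ?_
  obtain ⟨u, hu, hd⟩ := Metric.mem_closure_iff.1 (dense_x v) (ε / 2) (by linarith)
  obtain ⟨c, rfl⟩ := Finsupp.mem_span_range_iff_exists_finsupp.1 hu
  refine ⟨c.support, fun A hA => ?_⟩
  set u : X 𝕜 := c.sum fun i a => a • x i with hu'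
  have hu0 : u - ∑ n ∈ A, f n u • x n = 0 := by
    refine total _ fun k => ?_
    have := congrFun (coord_cut u A) k
    rw [this, cut]
    split_ifs with hk
    · rfl
    · rw [hu', Finsupp.sum, f_sum, if_neg fun h => hk (hA h)]
  have e : v - ∑ n ∈ A, f n v • x n =
      ((v - u) - ∑ n ∈ A, f n (v - u) • x n) + (u - ∑ n ∈ A, f n u • x n) := by
    simp only [map_sub, sub_smul, Finset.sum_sub_distrib]; abel
  rw [dist_comm, dist_eq_norm, e, hu0, add_zero]
  have := cut_le (v - u) A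
  rw [dist_eq_norm] at hd
  linarith

end Pool.Agent.H.MP_b7f2f1_an
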